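import Pool.Agent.N926.Sup.E

set_option autoImplicit false

namespace Pool.Agent.Results.MP_638395_nt.AllWeights

open Finset

/-- the rising factorial `(a)_k = a (a+1) ⋯ (a+k-1)` -/
def rf (a : ℚ) (k : ℕ) : ℚ := ∏ i ∈ range k, (a + (i : ℚ))

/-- `S_m(N) = ∑_{k=0}^N (-1)^k (4k-1)^m (-1/2)_k^3 / k!^3` -/
def S (m N : ℕ) : ℚ :=
  ∑ k ∈ range (N + 1), (-1) ^ k * (4 * (k : ℚ) - 1) ^ m * rf (-1 / 2) k ^ 3 / (k.factorial : ℚ) ^ 3

/-- `x ≡ y (mod p^n)`: `x - y` is zero or has `p`-adic valuation at least `n` -/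
def Congr (p n : ℕ) (x y : ℚ) : Prop := x - y = 0 ∨ (n : ℤ) ≤ padicValRat p (x - y)

/-- both congruences of the problem hold for every odd prime `p` and every `r ≥ 1` -/
def Works (m : ℕ) (c : ℤ) : Prop :=
  ∀ p : ℕ, p.Prime → p ≠ 2 → ∀ r : ℕ, 1 ≤ r →
    Congr p (r + 2) (S m ((p ^ r + 1) / 2)) (c * (p : ℚ) ^ r * (-1) ^ ((p - 1) * r / 2)) ∧
    Congr p (r + 2) (S m (p ^ r - 1)) (c * (p : ℚ) ^ r * (-1) ^ ((p - 1) * r / 2))

open Pool.Agent.N926.Sup in
theorem S_eq (m N : ℕ) : S m N = W (fun y => y ^ m) N := by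
  unfold S W aa
  refine sum_congr rfl fun k _ => ?_
  have h : rf (-1 / 2) k = ph k := by
    unfold rf ph
    refine prod_congr rfl fun i _ => ?_
    ring
  rw [h]
  push_cast
  ring

open Pool.Agent.N926.Sup in
theorem works_of_red {m : ℕ} {c : ℤ} (h : Red (fun y => 2 * y ^ m) c) : Works m c := by
  intro p hp h2 r hr
  haveI : Fact p.Prime := ⟨hp⟩
  obtain ⟨s, hs⟩ := hp.odd_of_ne_two h2
  obtain ⟨M, hM⟩ : Odd (p ^ r) := (hp.odd_of_ne_two h2).pow
  have e1 : (p ^ r + 1) / 2 = M + 1 := by omega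
  have e2 : p ^ r - 1 = 2 * M := by omega
  have e3 : (p - 1) * r / 2 = s * r := by
    have : (p - 1) * r = 2 * (s * r) := by
      rw [hs]
      simp only [Nat.add_sub_cancel]
      ring
    rw [this]
    omega
  have e4 : (-1 : ℚ) ^ M = (-1) ^ (s * r) := by
    apply sign
    rw [← hs]
    exact hM
  rw [e1, e2, e3, ← e4]
  unfold Congr
  rw [S_eq, S_eq]
  constructor
  · have := half_cong (p := p) h2 hr hM (Or.inl rfl) h
    unfold Dv at this
    push_cast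
    exact this
  · have := half_cong (p := p) h2 hr hM (Or.inr rfl) h
    unfold Dv at this
    push_cast
    exact this

/-- for every odd `m` there is an integer `c_m` for which both congruences hold, and the
conjectured values of `c_1, c_3, c_5, c_7, c_9, c_11` are correct -/
theorem result : (∀ m : ℕ, Odd m → ∃ c : ℤ, Works m c) ∧
    Works 1 (-1) ∧ Works 3 3 ∧ Works 5 23 ∧ Works 7 (-5) ∧ Works 9 1647 ∧
    Works 11 (-96973) := by
  refine ⟨fun m hm => ?_, ?_, ?_, ?_, ?_, ?_, ?_⟩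
  · obtain ⟨c, hc⟩ := Pool.Agent.N926.Sup.red_exists m hm
    exact ⟨c, works_of_red hc⟩
  · exact works_of_red ⟨fun _ => 0, fun y => by unfold Pool.Agent.N926.Sup.Q; ring⟩
  · exact works_of_red ⟨fun _ => 1, fun y => by unfold Pool.Agent.N926.Sup.Q; ring⟩
  · exact works_of_red ⟨fun y => y ^ 2 + 5, fun y => by unfold Pool.Agent.N926.Sup.Q; ring⟩
  · exact works_of_red ⟨fun y => y ^ 4 - 3 * y ^ 2 + 1,
      fun y => by unfold Pool.Agent.N926.Sup.Q; ring⟩
  · exact works_of_red ⟨fun y => y ^ 6 - 27 * y ^ 4 + 153 * y ^ 2 + 285,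
      fun y => by unfold Pool.Agent.N926.Sup.Q; ring⟩
  · exact works_of_red ⟨fun y => y ^ 8 - 67 * y ^ 6 + 1713 * y ^ 4 - 9291 * y ^ 2 - 16599,
      fun y => by unfold Pool.Agent.N926.Sup.Q; ring⟩

end Pool.Agent.Results.MP_638395_nt.AllWeights
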